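import Pool.Agent.H71.VK.Stmt

/-!
Target statements for the structure theorem on classes without perfectly many types.
-/

set_option autoImplicit false

open Set Pool.Agent.TK Pool.Agent.H71.VK

namespace Pool.Agent.H71.ST

variable {C : Type}

/-- `Wd` is a finite nonempty set of directions of `M`, each dominated by infinitely many
vertices, such that every component of `M - a`, `a` finite, is `w a` for some `w` in `Wd` or its
type is in `O`. -/
def EndsW (O : Set (Fl C)) (M : St C) (Wd : Set (Set ℕ → Set ℕ)) : Prop :=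
  Wd.Finite ∧ Wd.Nonempty ∧
    (∀ w ∈ Wd, IsDir M w ∧ (Dm M w).Infinite ∧ ∀ B : Set ℕ, B.Infinite → w B = ∅) ∧
    ∀ (a : List ℕ) (D : Set ℕ), IsCp M (ms a) D → (∃ w ∈ Wd, D = w (ms a)) ∨ InT O M a D

/-- For every finite set `R` the group of automorphisms which are the identity outside `w R`
has a closed subgroup with a continuous homomorphism onto the infinite symmetric group which
kills the automorphisms that fix a finite set `R'` and the component `w R'` pointwise. -/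
def DivE (M : St C) (w : Set ℕ → Set ℕ) : Prop :=
  ∀ R : Set ℕ, R.Finite → ∃ H : Subgroup (Equiv.Perm ℕ),
    (∀ g ∈ H, IsoH g M M ∧ ∀ z, z ∉ w R → g z = z) ∧
    (∀ g : Equiv.Perm ℕ, (∀ E : Finset ℕ, ∃ h ∈ H, ∀ x ∈ E, h x = g x) → g ∈ H) ∧
    ∃ φ : H →* Equiv.Perm ℕ, Function.Surjective φ ∧
      (∀ n : ℕ, ∃ E : Finset ℕ, ∀ h h' : H,
        (∀ x ∈ E, (h : Equiv.Perm ℕ) x = (h' : Equiv.Perm ℕ) x) → φ h n = φ h' n) ∧
      ∀ g : H, (∃ R' : Set ℕ, R'.Finite ∧ (∀ z ∈ R', (g : Equiv.Perm ℕ) z = z) ∧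
        ∀ z ∈ w R', (g : Equiv.Perm ℕ) z = z) → φ g = 1

/-- STA: the ends of all but countably many members. -/
def STA (C : Type) (c0 : C) [MeasurableSpace C] : Prop :=
  ∀ (b : Rk) (X : Set (St C)), Hyp c0 b X → ∃ O : Set (Fl C), O.Countable ∧
    ∃ T : Set (St C), T.Countable ∧
      ∀ M ∈ X, (∃ N ∈ T, Iso M N) ∨ ∃ Wd, EndsW O M Wd

/-- FINAL: the structure theorem. -/
def FINAL (C : Type) (c0 : C) [MeasurableSpace C] : Prop :=
  ∀ X : Set (St C), MeasurableSet X → (∀ M ∈ X, Valid c0 M) →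
    (∀ M ∈ X, ∀ N, Iso M N → N ∈ X) →
    Perf X ∨ (∃ T : Set (St C), T.Countable ∧ ∀ M ∈ X, ∃ N ∈ T, Iso M N) ∨
    ∃ O : Set (Fl C), O.Countable ∧
      (∃ T : Set (St C), T.Countable ∧
        ∀ M ∈ X, (¬ ∃ Wd, EndsW O M Wd) → ∃ N ∈ T, Iso M N) ∧
      ¬ ∃ T : Set (St C), T.Countable ∧
        ∀ M ∈ X, (∃ Wd, EndsW O M Wd ∧ ∃ w ∈ Wd, DivE M w) → ∃ N ∈ T, Iso M N

end Pool.Agent.H71.ST
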