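import Pool.Agent.H71.ST.STA3
import Pool.Agent.H75.ST.Final

/-! Assembly of the structure theorem with hub ends, from HUBF. -/

set_option autoImplicit false

open Set Pool.Agent.TK Pool.Agent.H71.VK Pool.Agent.ST

namespace Pool.Agent.H71.ST

theorem finw_all {C : Type} [MeasurableSpace C] {c0 : C} : FINW C c0 := by
  have hCOMP : COMP C c0 := pf_COMP
  have hDIR : DIR C c0 := Pool.Agent.H48.TK.pf_DIR
  have hINF : INF C := pf_INF
  have hRPF : RPF C c0 := pf_RPF
  have hTRA : TRA C c0 := pf_TRA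
  have hEXN : EXN C c0 := pf_EXN hTRA hINF
  have hMEA : MEA C c0 := pf_MEA hRPF
  have hMEM : MEM C c0 := pf_MEM hCOMP hRPF
  have hFINB : FINB C c0 := pf_FINB hEXN hRPF hMEM hMEA
  exact pf_FINW kl_all hFINB hDIR

/-- the structure theorem, from HUBF -/
theorem final3_of_hub {C : Type} [MeasurableSpace C] [StandardBorelSpace C] {c0 : C}
    (hHUBF : HUBF C c0) : FINAL3 C c0 := by
  have hCTR : CTR C := pf_CTR
  have hREL : REL C := pf_REL hCTR
  have hSCO : SCO C := pf_SCO pf_SC1 pf_SC2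
  have hGLA : GLA C c0 := pf_GLA hREL hCTR
  have hGLB : GLB C c0 := pf_GLB
  have hGLU : GLU C c0 := pf_GLU hGLA hGLB
  have hNFM : NFM C := pf_NFM
  exact final3_of_sta3 pf_SWG (pf_FIM hSCO) pf_ITR pf_LOP hNFM
    (pf_TYC pf_THN hNFM) (pf_STA3 hHUBF finw_all hSCO hGLU)

end Pool.Agent.H71.ST
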