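import Pool.Agent.H71.ST.Defs
import Pool.Agent.H75.ST.StmtA

/-!
Target statements for the structure theorem with hub systems.
-/

set_option autoImplicit false

open Set Pool.Agent.TK Pool.Agent.H71.VK

namespace Pool.Agent.H71.ST

variable {C : Type}

/-- The direction `w` carries a hub system: different vertices `b i` and numbers `k i` such that
for every finite set `F` and every `n` some vertex `v` of `w F` is joined to each `b i`, `i ≤ n`,
by a path of length at most `k i + 1` all of whose vertices except `b i` are outside `F`. -/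
def HubE (M : St C) (w : Set ℕ → Set ℕ) : Prop :=
  ∃ b k : ℕ → ℕ, Function.Injective b ∧ ∀ (F : Set ℕ) (n : ℕ), F.Finite →
    ∃ v ∈ w F, ∀ i, i ≤ n → ∃ z ∈ Pool.Agent.ST.ball M F v (k i), M.1 z (b i) = true

/-- HUBT: all but countably many members have a wild direction with a hub system. -/
def HUBT (C : Type) (c0 : C) [MeasurableSpace C] : Prop :=
  ∀ (b : Rk) (X : Set (St C)), Hyp c0 b X → ∃ T : Set (St C), T.Countable ∧
    ∀ M ∈ X, (∃ N ∈ T, Iso M N) ∨ ∃ w, Pool.Agent.ST.Wild c0 b M w ∧ HubE M w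

/-- STAW: the ends of all but countably many members are the wild directions. -/
def STAW (C : Type) (c0 : C) [MeasurableSpace C] : Prop :=
  ∀ (b : Rk) (X : Set (St C)), Hyp c0 b X → ∃ O : Set (Fl C), O.Countable ∧
    ∃ T : Set (St C), T.Countable ∧
      ∀ M ∈ X, (∃ N ∈ T, Iso M N) ∨ EndsW O M {w | Pool.Agent.ST.Wild c0 b M w}

/-- STA2: the ends of all but countably many members; one of them carries a hub system. -/
def STA2 (C : Type) (c0 : C) [MeasurableSpace C] : Prop :=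
  ∀ (b : Rk) (X : Set (St C)), Hyp c0 b X → ∃ O : Set (Fl C), O.Countable ∧
    ∃ T : Set (St C), T.Countable ∧
      ∀ M ∈ X, (∃ N ∈ T, Iso M N) ∨ ∃ Wd, EndsW O M Wd ∧ ∃ w ∈ Wd, HubE M w

/-- FINAL2: the structure theorem. -/
def FINAL2 (C : Type) (c0 : C) [MeasurableSpace C] : Prop :=
  ∀ X : Set (St C), MeasurableSet X → (∀ M ∈ X, Valid c0 M) →
    (∀ M ∈ X, ∀ N, Iso M N → N ∈ X) →
    Perf X ∨ (∃ T : Set (St C), T.Countable ∧ ∀ M ∈ X, ∃ N ∈ T, Iso M N) ∨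
    ∃ O : Set (Fl C), O.Countable ∧
      (∃ T : Set (St C), T.Countable ∧
        ∀ M ∈ X, (¬ ∃ Wd, EndsW O M Wd ∧ ∃ w ∈ Wd, HubE M w) → ∃ N ∈ T, Iso M N) ∧
      ¬ ∃ T : Set (St C), T.Countable ∧
        ∀ M ∈ X, (∃ Wd, EndsW O M Wd ∧ ∃ w ∈ Wd, DivE M w) → ∃ N ∈ T, Iso M N

theorem sta2_of {c0 : C} [MeasurableSpace C] (h1 : STAW C c0) (h2 : HUBT C c0) : STA2 C c0 := by
  intro b X hyp
  obtain ⟨O, hO, T1, hT1, H1⟩ := h1 b X hyp
  obtain ⟨T2, hT2, H2⟩ := h2 b X hyp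
  refine ⟨O, hO, T1 ∪ T2, hT1.union hT2, fun M hM => ?_⟩
  rcases H1 M hM with ⟨N, hN, hi⟩ | h3
  · exact Or.inl ⟨N, Or.inl hN, hi⟩
  rcases H2 M hM with ⟨N, hN, hi⟩ | ⟨w, hw, h4⟩
  · exact Or.inl ⟨N, Or.inr hN, hi⟩
  · exact Or.inr ⟨_, h3, w, hw, h4⟩

end Pool.Agent.H71.ST
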