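import Pool.Agent.H71.ST.Defs2

/-!
Target statements for the structure theorem with hub ends.
-/

set_option autoImplicit false

open Set Pool.Agent.TK Pool.Agent.H71.VK

namespace Pool.Agent.H71.ST

variable {C : Type}

/-- HUBF: a flap has a type in a countable set or contains a wild direction with a hub system. -/
def HUBF (C : Type) (c0 : C) [MeasurableSpace C] : Prop :=
  ∀ (b : Rk) (X : Set (St C)), Hyp c0 b X → ∃ O : Set (Fl C), O.Countable ∧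
    ∀ M ∈ X, ∀ (a : List ℕ) (v : ℕ), v ∉ a →
      (∃ t ∈ O, FI M a (cp M (ms a) v) t.1 t.2.1 t.set) ∨
      ∃ w, Pool.Agent.ST.Wild c0 b M w ∧ HubE M w ∧ w (ms a) = cp M (ms a) v

/-- `Wd` is a finite nonempty set of hub ends of `M` such that every component of `M - a`,
`a` finite, is `w a` for some `w` in `Wd` or its type is in `O`. -/
def EndsH (O : Set (Fl C)) (M : St C) (Wd : Set (Set ℕ → Set ℕ)) : Prop :=
  Wd.Finite ∧ Wd.Nonempty ∧
    (∀ w ∈ Wd, IsDir M w ∧ HubE M w ∧ ∀ B : Set ℕ, B.Infinite → w B = ∅) ∧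
    ∀ (a : List ℕ) (D : Set ℕ), IsCp M (ms a) D → (∃ w ∈ Wd, D = w (ms a)) ∨ InT O M a D

/-- STA3: the hub ends of all but countably many members. -/
def STA3 (C : Type) (c0 : C) [MeasurableSpace C] : Prop :=
  ∀ (b : Rk) (X : Set (St C)), Hyp c0 b X → ∃ O : Set (Fl C), O.Countable ∧
    ∃ T : Set (St C), T.Countable ∧
      ∀ M ∈ X, (∃ N ∈ T, Iso M N) ∨ ∃ Wd, EndsH O M Wd

/-- FINAL3: the structure theorem. -/
def FINAL3 (C : Type) (c0 : C) [MeasurableSpace C] : Prop :=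
  ∀ X : Set (St C), MeasurableSet X → (∀ M ∈ X, Valid c0 M) →
    (∀ M ∈ X, ∀ N, Iso M N → N ∈ X) →
    Perf X ∨ (∃ T : Set (St C), T.Countable ∧ ∀ M ∈ X, ∃ N ∈ T, Iso M N) ∨
    ∃ O : Set (Fl C), O.Countable ∧
      (∃ T : Set (St C), T.Countable ∧
        ∀ M ∈ X, (¬ ∃ Wd, EndsH O M Wd) → ∃ N ∈ T, Iso M N) ∧
      ¬ ∃ T : Set (St C), T.Countable ∧
        ∀ M ∈ X, (∃ Wd, EndsH O M Wd ∧ ∃ w ∈ Wd, DivE M w) → ∃ N ∈ T, Iso M N

lemma ball_conn {M : St C} {F : Set ℕ} {v : ℕ} (hv : v ∉ F) :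
    ∀ (m : ℕ) {z : ℕ}, z ∈ Pool.Agent.ST.ball M F v m → Conn M F v z
  | 0, z, h => by
    rw [show z = v from h]
    exact Conn.refl hv
  | m + 1, z, h => by
    rcases h with h | ⟨h1, s, hs, h2⟩
    · exact ball_conn hv m h
    · exact (ball_conn hv m hs).step h2 h1

/-- the vertices of a hub system dominate the end -/
lemma HubE.dm {c0 : C} {M : St C} (hV : Valid c0 M) {w : Set ℕ → Set ℕ} (hw : IsDir M w)
    (h : HubE M w) : (Dm M w).Infinite := by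
  obtain ⟨b, k, hb, H⟩ := h
  refine (infinite_range_of_injective hb).mono ?_
  rintro _ ⟨i, rfl⟩ F hF hbF
  obtain ⟨v, hv, H'⟩ := H F i hF
  obtain ⟨z, hz, hzb⟩ := H' i le_rfl
  obtain ⟨u, hu, hD⟩ := hw.1 F hF
  have hvF : v ∉ F := by
    rw [hD] at hv
    exact Conn.not_right hv
  have hzw : z ∈ w F := by
    rw [hD] at hv ⊢
    exact Conn.trans hv (ball_conn hvF _ hz)
  refine ⟨fun hbw => ?_, z, hzw, by rwa [hV.1 (b i) z]⟩
  rw [hD] at hbw
  exact Conn.not_right hbw hbF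

lemma EndsH.endsW {c0 : C} {O : Set (Fl C)} {M : St C} (hV : Valid c0 M)
    {Wd : Set (Set ℕ → Set ℕ)} (h : EndsH O M Wd) : EndsW O M Wd :=
  ⟨h.1, h.2.1, fun w hw => ⟨(h.2.2.1 w hw).1, (h.2.2.1 w hw).2.1.dm hV (h.2.2.1 w hw).1,
    (h.2.2.1 w hw).2.2⟩, h.2.2.2⟩

end Pool.Agent.H71.ST
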