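import Pool.Agent.H71.ST.Defs
import Pool.Agent.H71.VK.REDG

/-! From structures with an explicit graph to relational structures (structure theorem). -/

set_option autoImplicit false

open Set Pool.Agent.TK Pool.Agent.H71.VK

namespace Pool.Agent.H71.ST

/-- REDG for two conclusions and a common parameter. -/
def REDS (C : Type) (c0 : C) [MeasurableSpace C] : Prop :=
  ∀ X : Set (List ℕ → C), MeasurableSet X → (∀ c ∈ X, ∀ c', RIso c c' → c' ∈ X) →
      (∃ f : (ℕ → Bool) → List ℕ → C, Measurable f ∧ (∀ x, f x ∈ X) ∧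
        ∀ x x', x ≠ x' → ¬ RIso (f x) (f x')) ∨
      (∃ T : Set (List ℕ → C), T.Countable ∧ ∀ c ∈ X, ∃ c' ∈ T, RIso c c') ∨
      ∃ O : Set (Fl C), O.Countable ∧
        (∃ T : Set (List ℕ → C), T.Countable ∧
          ∀ c ∈ X, (¬ ∃ Wd, EndsW O (mk c0 c) Wd) → ∃ c' ∈ T, RIso c c') ∧
        ¬ ∃ T : Set (List ℕ → C), T.Countable ∧
          ∀ c ∈ X, (∃ Wd, EndsW O (mk c0 c) Wd ∧ ∃ w ∈ Wd, DivE (mk c0 c) w) →
            ∃ c' ∈ T, RIso c c'

variable {C : Type} {c0 : C}

theorem reds [MeasurableSpace C] [StandardBorelSpace C] (hF : FINAL C c0) : REDS C c0 := by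
  classical
  intro X hX hI
  set X' : Set (St C) := {M | M.2 ∈ X ∧ ∀ u v, (M.1 u v = true ↔ (Gaifman c0 M.2).Adj u v)}
    with hX'
  have hmk : ∀ M ∈ X', M = mk c0 M.2 := by
    rintro M ⟨-, hM⟩
    refine Prod.ext ?_ rfl
    funext u v
    rw [Bool.eq_iff_iff, hM u v]
    simp [mk]
  have hmk2 : ∀ x ∈ X, mk c0 x ∈ X' := fun x hx => ⟨hx, fun u v => by simp [mk]⟩
  have hm : MeasurableSet X' := by
    have h1 : MeasurableSet {M : St C | M.2 ∈ X} := hX.preimage measurable_snd
    have h2 : ∀ u v, MeasurableSet {M : St C | M.1 u v = true} := by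
      intro u v
      have h3 : Measurable fun M : St C => M.1 u v :=
        (measurable_pi_apply v).comp ((measurable_pi_apply u).comp measurable_fst)
      exact h3 (measurableSet_singleton true)
    have h3 : ∀ u v, MeasurableSet {M : St C | (Gaifman c0 M.2).Adj u v} := by
      intro u v
      have h4 : {M : St C | (Gaifman c0 M.2).Adj u v} =
          {_M : St C | u ≠ v} ∩ ⋃ l : List ℕ, ⋃ _ : u ∈ l ∧ v ∈ l, {M : St C | M.2 l = c0}ᶜ := by
        ext M
        simp only [mem_ofPred_eq, mem_inter_iff, mem_iUnion, mem_compl_iff]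
        constructor
        · rintro ⟨h5, l, h6, h7, h8⟩
          exact ⟨h5, l, ⟨h7, h8⟩, h6⟩
        · rintro ⟨h5, l, ⟨h7, h8⟩, h6⟩
          exact ⟨h5, l, h6, h7, h8⟩
      rw [h4]
      refine MeasurableSet.inter (MeasurableSet.const _) ?_
      refine MeasurableSet.iUnion fun l => MeasurableSet.iUnion fun _ => MeasurableSet.compl ?_
      have h5 : Measurable fun M : St C => M.2 l := (measurable_pi_apply l).comp measurable_snd
      exact h5 (measurableSet_singleton c0)
    have h4 : X' = {M : St C | M.2 ∈ X} ∩ ⋂ u, ⋂ v,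
        {M : St C | M.1 u v = true ↔ (Gaifman c0 M.2).Adj u v} := by
      ext M
      simp only [hX', mem_ofPred_eq, mem_inter_iff, mem_iInter]
    rw [h4]
    refine h1.inter (MeasurableSet.iInter fun u => MeasurableSet.iInter fun v => ?_)
    have h5 : {M : St C | M.1 u v = true ↔ (Gaifman c0 M.2).Adj u v} =
        ({M : St C | M.1 u v = true} ∩ {M : St C | (Gaifman c0 M.2).Adj u v}) ∪
          ({M : St C | M.1 u v = true}ᶜ ∩ {M : St C | (Gaifman c0 M.2).Adj u v}ᶜ) := by
      ext M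
      simp only [mem_ofPred_eq, mem_union, mem_inter_iff, mem_compl_iff]
      tauto
    rw [h5]
    exact ((h2 u v).inter (h3 u v)).union ((h2 u v).compl.inter (h3 u v).compl)
  have hV : ∀ M ∈ X', Valid c0 M := fun M hM => by rw [hmk M hM]; exact valid_mk _
  have hinv : ∀ M ∈ X', ∀ N, Iso M N → N ∈ X' := by
    rintro M hM N ⟨h, -, h1, h2⟩
    refine ⟨hI _ hM.1 _ ⟨h, h2⟩, fun u v => ?_⟩
    have h3 := hM.2 (h.symm u) (h.symm v)
    rw [h1, Equiv.apply_symm_apply, Equiv.apply_symm_apply, adj_of_riso h2,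
      Equiv.apply_symm_apply, Equiv.apply_symm_apply] at h3
    exact h3
  rcases hF X' hm hV hinv with ⟨f, hf1, hf2, hf3⟩ | ⟨T, hT1, hT2⟩ | ⟨O, hO, ⟨T, hT1, hT2⟩, h⟩
  · left
    refine ⟨fun x => (f x).2, measurable_snd.comp hf1, fun x => (hf2 x).1, ?_⟩
    intro x x' hxx hiso
    apply hf3 x x' hxx
    rw [hmk _ (hf2 x), hmk _ (hf2 x')]
    exact iso_mk_iff.2 hiso
  · right; left
    refine ⟨Prod.snd '' T, hT1.image _, fun c hc => ?_⟩
    obtain ⟨N, hN, h, -, -, h2⟩ := hT2 _ (hmk2 c hc)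
    exact ⟨_, ⟨N, hN, rfl⟩, h, h2⟩
  · right; right
    refine ⟨O, hO, ⟨Prod.snd '' T, hT1.image _, fun c hc hc' => ?_⟩, ?_⟩
    · obtain ⟨N, hN, h, -, -, h2⟩ := hT2 _ (hmk2 c hc) hc'
      exact ⟨_, ⟨N, hN, rfl⟩, h, h2⟩
    · rintro ⟨T', hT1', hT2'⟩
      apply h
      refine ⟨mk c0 '' T', hT1'.image _, fun M hM hPM => ?_⟩
      have h1 := hmk M hM
      rw [h1] at hPM
      obtain ⟨c', hc', hiso⟩ := hT2' _ hM.1 hPM
      refine ⟨_, ⟨c', hc', rfl⟩, ?_⟩
      rw [h1]
      exact iso_mk_iff.2 hiso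

/-- dominating vertices -/
lemma mem_of_dm {M : St C} {w : Set ℕ → Set ℕ} (hw : IsDir M w) {v : ℕ} (hv : v ∈ Dm M w)
    {S : Set ℕ} (hS : S.Finite) (hvS : v ∉ S) (hV : Valid c0 M) : v ∈ w S := by
  have h1 := hv (insert v S) (hS.insert v) (mem_insert v S)
  obtain ⟨h2, s, hs, hsv⟩ := h1
  have h3 : w (insert v S) ⊆ w S := hw.2 _ _ (hS.insert v) (subset_insert v S)
  have h4 : s ∈ w S := h3 hs
  obtain ⟨u, hu, hD⟩ := hw.1 S hS
  rw [hD] at h4 ⊢
  have h5 : M.1 s v = true := by rwa [hV.1 s v]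
  exact Conn.step (show Conn M S u s from h4) h5 hvS

/-- an isomorphism of flaps as a map defined on the marks too -/
lemma fi_map {M N : St C} {a b : List ℕ} {D D' : Set ℕ} (hD : Disjoint D (ms a))
    (H : FI M a D N b D') :
    ∃ h : ℕ → ℕ, a.map h = b ∧ BijOn h (ms a ∪ D) (ms b ∪ D') ∧
      ∀ l : List ℕ, (∀ z ∈ l, z ∈ ms a ∪ D) → N.2 (l.map h) = M.2 l := by
  classical
  obtain ⟨h0, hlen, hbij, hpi⟩ := H
  have key : ∀ z ∈ a, ∃ w, (z, w) ∈ a.zip b := by
    intro z hz
    obtain ⟨i, hi, rfl⟩ := List.mem_iff_getElem.1 hz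
    refine ⟨b[i]'(hlen ▸ hi), ?_⟩
    rw [List.mem_iff_getElem]
    exact ⟨i, by simp [hi, ← hlen], by simp⟩
  choose! k hk using key
  set h : ℕ → ℕ := fun z => if z ∈ D then h0 z else k z with hh
  have hhD : ∀ z ∈ D, h z = h0 z := fun z hz => by simp [hh, hz]
  have hha : ∀ z ∈ a, h z = k z := fun z hz => by
    have : z ∉ D := fun hzD => Set.disjoint_left.1 hD hzD hz
    simp [hh, this]
  have hmem : ∀ z ∈ a, (z, h z) ∈ a.zip b := fun z hz => by rw [hha z hz]; exact hk z hz
  -- everything comes from `PI` for the list of the points in `D`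
  have hp : ∀ l : List ℕ, (∀ z ∈ l, z ∈ ms a ∪ D) →
      PI M N (l.map fun z => (z, h z)) := by
    intro l hl
    refine (hpi (l.filter (fun z => decide (z ∈ D))) (fun z hz => by
      simpa using (List.mem_filter.1 hz).2)).mono ?_
    intro q hq
    obtain ⟨z, hz, rfl⟩ := List.mem_map.1 hq
    rw [List.mem_append]
    by_cases hzD : z ∈ D
    · right
      rw [List.mem_map]
      exact ⟨z, List.mem_filter.2 ⟨hz, by simpa using hzD⟩, by rw [hhD z hzD]⟩
    · left
      exact hmem z ((hl z hz).resolve_right hzD)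
  have hab : a.map h = b := by
    apply List.ext_getElem
    · simpa using hlen
    · intro i h1 h2
      rw [List.getElem_map]
      have h3 : i < a.length := by simpa using h1
      have e1 : (a[i], h a[i]) ∈ a.zip b := hmem _ (List.getElem_mem h3)
      have e2 : (a[i], b[i]) ∈ a.zip b := by
        rw [List.mem_iff_getElem]
        exact ⟨i, by simp [h3, h2], by simp⟩
      have e3 := hpi [] (by simp)
      simp only [List.map_nil, List.append_nil] at e3
      exact (e3.1 _ e1 _ e2).1 rfl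
  refine ⟨h, hab, ⟨?_, ?_, ?_⟩, ?_⟩
  · rintro z (hz | hz)
    · left
      rw [← hab]
      exact List.mem_map_of_mem hz
    · right
      rw [hhD z hz]
      exact hbij.1 hz
  · intro z hz z' hz' e
    have h1 := hp [z, z'] (fun y hy => by
      simp only [List.mem_cons, List.not_mem_nil, or_false] at hy
      rcases hy with rfl | rfl
      · exact hz
      · exact hz')
    exact (h1.1 (z, h z) (by simp) (z', h z') (by simp)).2 e
  · rintro y (hy | hy)
    · rw [← hab] at hy
      obtain ⟨z, hz, rfl⟩ := List.mem_map.1 hy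
      exact ⟨z, Or.inl hz, rfl⟩
    · obtain ⟨z, hz, rfl⟩ := hbij.2.2 hy
      exact ⟨z, Or.inr hz, hhD z hz⟩
  · intro l hl
    have h1 := (hp l hl).2.2 (l.map fun z => (z, h z)) (fun z hz => hz)
    rw [List.map_map, List.map_map] at h1
    have e1 : l.map (Prod.fst ∘ fun z => (z, h z)) = l := by
      conv_rhs => rw [← List.map_id l]
      rfl
    rw [e1] at h1
    exact h1.symm

end Pool.Agent.H71.ST
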