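import Pool.Agent.H71.ST.RED
import Pool.Agent.H71.ST.Defs3

/-! From structures with an explicit graph to relational structures (hub ends). -/

set_option autoImplicit false

open Set Pool.Agent.TK Pool.Agent.H71.VK

namespace Pool.Agent.H71.ST

/-- the structure theorem for relational structures -/
def REDS3 (C : Type) (c0 : C) [MeasurableSpace C] : Prop :=
  ∀ X : Set (List ℕ → C), MeasurableSet X → (∀ c ∈ X, ∀ c', RIso c c' → c' ∈ X) →
      (∃ f : (ℕ → Bool) → List ℕ → C, Measurable f ∧ (∀ x, f x ∈ X) ∧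
        ∀ x x', x ≠ x' → ¬ RIso (f x) (f x')) ∨
      (∃ T : Set (List ℕ → C), T.Countable ∧ ∀ c ∈ X, ∃ c' ∈ T, RIso c c') ∨
      ∃ O : Set (Fl C), O.Countable ∧
        (∃ T : Set (List ℕ → C), T.Countable ∧
          ∀ c ∈ X, (¬ ∃ Wd, EndsH O (mk c0 c) Wd) → ∃ c' ∈ T, RIso c c') ∧
        ¬ ∃ T : Set (List ℕ → C), T.Countable ∧
          ∀ c ∈ X, (∃ Wd, EndsH O (mk c0 c) Wd ∧ ∃ w ∈ Wd, DivE (mk c0 c) w) →
            ∃ c' ∈ T, RIso c c'

variable {C : Type} {c0 : C}

theorem reds3 [MeasurableSpace C] [StandardBorelSpace C] (hF : FINAL3 C c0) : REDS3 C c0 := by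
  classical
  intro X hX hI
  set X' : Set (St C) := {M | M.2 ∈ X ∧ ∀ u v, (M.1 u v = true ↔ (Gaifman c0 M.2).Adj u v)}
    with hX'
  have hmk : ∀ M ∈ X', M = mk c0 M.2 := by
    rintro M ⟨-, hM⟩
    refine Prod.ext ?_ rfl
    funext u v
    rw [Bool.eq_iff_iff, hM u v]
    simp [mk]
  have hmk2 : ∀ x ∈ X, mk c0 x ∈ X' := fun x hx => ⟨hx, fun u v => by simp [mk]⟩
  have hm : MeasurableSet X' := by
    have h1 : MeasurableSet {M : St C | M.2 ∈ X} := hX.preimage measurable_snd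
    have h2 : ∀ u v, MeasurableSet {M : St C | M.1 u v = true} := by
      intro u v
      have h3 : Measurable fun M : St C => M.1 u v :=
        (measurable_pi_apply v).comp ((measurable_pi_apply u).comp measurable_fst)
      exact h3 (measurableSet_singleton true)
    have h3 : ∀ u v, MeasurableSet {M : St C | (Gaifman c0 M.2).Adj u v} := by
      intro u v
      have h4 : {M : St C | (Gaifman c0 M.2).Adj u v} =
          {_M : St C | u ≠ v} ∩ ⋃ l : List ℕ, ⋃ _ : u ∈ l ∧ v ∈ l, {M : St C | M.2 l = c0}ᶜ := by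
        ext M
        simp only [mem_ofPred_eq, mem_inter_iff, mem_iUnion, mem_compl_iff]
        constructor
        · rintro ⟨h5, l, h6, h7, h8⟩
          exact ⟨h5, l, ⟨h7, h8⟩, h6⟩
        · rintro ⟨h5, l, ⟨h7, h8⟩, h6⟩
          exact ⟨h5, l, h6, h7, h8⟩
      rw [h4]
      refine MeasurableSet.inter (MeasurableSet.const _) ?_
      refine MeasurableSet.iUnion fun l => MeasurableSet.iUnion fun _ => MeasurableSet.compl ?_
      have h5 : Measurable fun M : St C => M.2 l := (measurable_pi_apply l).comp measurable_snd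
      exact h5 (measurableSet_singleton c0)
    have h4 : X' = {M : St C | M.2 ∈ X} ∩ ⋂ u, ⋂ v,
        {M : St C | M.1 u v = true ↔ (Gaifman c0 M.2).Adj u v} := by
      ext M
      simp only [hX', mem_ofPred_eq, mem_inter_iff, mem_iInter]
    rw [h4]
    refine h1.inter (MeasurableSet.iInter fun u => MeasurableSet.iInter fun v => ?_)
    have h5 : {M : St C | M.1 u v = true ↔ (Gaifman c0 M.2).Adj u v} =
        ({M : St C | M.1 u v = true} ∩ {M : St C | (Gaifman c0 M.2).Adj u v}) ∪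
          ({M : St C | M.1 u v = true}ᶜ ∩ {M : St C | (Gaifman c0 M.2).Adj u v}ᶜ) := by
      ext M
      simp only [mem_ofPred_eq, mem_union, mem_inter_iff, mem_compl_iff]
      tauto
    rw [h5]
    exact ((h2 u v).inter (h3 u v)).union ((h2 u v).compl.inter (h3 u v).compl)
  have hV : ∀ M ∈ X', Valid c0 M := fun M hM => by rw [hmk M hM]; exact valid_mk _
  have hinv : ∀ M ∈ X', ∀ N, Iso M N → N ∈ X' := by
    rintro M hM N ⟨h, -, h1, h2⟩
    refine ⟨hI _ hM.1 _ ⟨h, h2⟩, fun u v => ?_⟩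
    have h3 := hM.2 (h.symm u) (h.symm v)
    rw [h1, Equiv.apply_symm_apply, Equiv.apply_symm_apply, adj_of_riso h2,
      Equiv.apply_symm_apply, Equiv.apply_symm_apply] at h3
    exact h3
  rcases hF X' hm hV hinv with ⟨f, hf1, hf2, hf3⟩ | ⟨T, hT1, hT2⟩ | ⟨O, hO, ⟨T, hT1, hT2⟩, h⟩
  · left
    refine ⟨fun x => (f x).2, measurable_snd.comp hf1, fun x => (hf2 x).1, ?_⟩
    intro x x' hxx hiso
    apply hf3 x x' hxx
    rw [hmk _ (hf2 x), hmk _ (hf2 x')]
    exact iso_mk_iff.2 hiso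
  · right; left
    refine ⟨Prod.snd '' T, hT1.image _, fun c hc => ?_⟩
    obtain ⟨N, hN, h, -, -, h2⟩ := hT2 _ (hmk2 c hc)
    exact ⟨_, ⟨N, hN, rfl⟩, h, h2⟩
  · right; right
    refine ⟨O, hO, ⟨Prod.snd '' T, hT1.image _, fun c hc hc' => ?_⟩, ?_⟩
    · obtain ⟨N, hN, h, -, -, h2⟩ := hT2 _ (hmk2 c hc) hc'
      exact ⟨_, ⟨N, hN, rfl⟩, h, h2⟩
    · rintro ⟨T', hT1', hT2'⟩
      apply h
      refine ⟨mk c0 '' T', hT1'.image _, fun M hM hPM => ?_⟩
      have h1 := hmk M hM
      rw [h1] at hPM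
      obtain ⟨c', hc', hiso⟩ := hT2' _ hM.1 hPM
      refine ⟨_, ⟨c', hc', rfl⟩, ?_⟩
      rw [h1]
      exact iso_mk_iff.2 hiso

/-- a point of a ball is joined to the centre by a short walk outside the set -/
lemma walk_of_ball {x : List ℕ → C} {G : SimpleGraph ℕ}
    (hG : ∀ u v, (mk c0 x).1 u v = true → G.Adj u v) {F : Set ℕ} {v : ℕ} (hv : v ∉ F) :
    ∀ (m : ℕ) {z : ℕ}, z ∈ Pool.Agent.ST.ball (mk c0 x) F v m →
      ∃ p : G.Walk v z, p.length ≤ m ∧ ∀ y ∈ p.support, y ∉ F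
  | 0, z, h => by
    rw [show z = v from h]
    exact ⟨SimpleGraph.Walk.nil, le_rfl, by simpa using hv⟩
  | m + 1, z, h => by
    rcases h with h | ⟨h1, s, hs, h2⟩
    · obtain ⟨p, hp, hp'⟩ := walk_of_ball hG hv m h
      exact ⟨p, by omega, hp'⟩
    · obtain ⟨p, hp, hp'⟩ := walk_of_ball hG hv m hs
      refine ⟨p.concat (hG s z h2), ?_, fun y hy => ?_⟩
      · rw [SimpleGraph.Walk.length_concat]
        omega
      · rw [SimpleGraph.Walk.support_concat] at hy
        simp only [List.mem_append, List.mem_singleton] at hy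
        rcases hy with hy | rfl
        · exact hp' y hy
        · exact h1

end Pool.Agent.H71.ST
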