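import Pool.Agent.H71.ST.Defs3
import Pool.Agent.H71.ST.FIN2
import Pool.Agent.H16.TK.CORE

/-!
# STA3 from HUBF; FINAL3 from STA3
-/

set_option autoImplicit false

open Set Pool.Agent.TK Pool.Agent.H71.VK

namespace Pool.Agent.H71.ST

/-- a countable set of flap types is uniformly rigid -/
lemma exists_rig {C : Type} {c0 : C} (hSCO : SCO C) (O : Set (Fl C)) (hO : O.Countable) :
    ∃ d : Rk, ∀ (M : St C) (a : List ℕ) (D : Set ℕ), InT O M a D → Rig c0 d M a D := by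
  classical
  choose rk hrk using hSCO
  rcases O.eq_empty_or_nonempty with rfl | hne
  · exact ⟨Rk.zero, fun M a D h => by
      obtain ⟨t, ht, -⟩ := h
      exact absurd ht (notMem_empty t)⟩
  obtain ⟨e, he⟩ := hO.exists_eq_range hne
  refine ⟨Rk.sup (fun n => rk (e n).1 (e n).2.1 (e n).set), ?_⟩
  rintro M a D ⟨t, ht, hFI⟩ N b v hN hv hFB
  rw [he] at ht
  obtain ⟨n, rfl⟩ := ht
  have h1 : RLe C (rk (e n).1 (e n).2.1 (e n).set)
      (Rk.sup (fun n => rk (e n).1 (e n).2.1 (e n).set)) :=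
    RLe.sup (fun n => rk (e n).1 (e n).2.1 (e n).set) n
  have h2 : FB (rk (e n).1 (e n).2.1 (e n).set) (e n).1 (e n).2.1 (e n).set N b
      (cp N (ms b) v) := ((hFI.symm.fb _).trans (hFB.mono h1))
  exact hFI.trans (hrk _ _ _ N b _ h2)

/-- the structures all of whose components have types in a countable set have countably many
types -/
theorem ctb_of {C : Type} [MeasurableSpace C] {c0 : C} (hSCO : SCO C) (hGLU : GLU C c0)
    (b : Rk) (X : Set (St C)) (hyp : Hyp c0 b X) (O : Set (Fl C)) (hO : O.Countable) :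
    ∃ T : Set (St C), T.Countable ∧
      ∀ M ∈ X, (∀ v, InT O M [] (cp M (ms []) v)) → ∃ N ∈ T, Iso M N := by
  classical
  obtain ⟨d, hd⟩ := exists_rig (c0 := c0) hSCO O hO
  obtain ⟨T', hT', hT'X, hrep⟩ := hyp.tc (Rk.lim (W d))
  refine ⟨Prod.fst '' T', hT'.image _, ?_⟩
  intro M hM hall
  obtain ⟨t, ht, htl, hbf⟩ := hrep M hM []
  refine ⟨t.1, ⟨t, ht, rfl⟩, ?_⟩
  have h1 : FI M [] univ t.1 [] univ := by
    apply hGLU d M t.1 [] [] univ univ (hyp.val M hM) (hyp.val _ (hT'X t ht)) rfl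
    · intro v _; exact ⟨by simp, subset_univ _⟩
    · intro v _; exact ⟨by simp, subset_univ _⟩
    · simpa using hbf
    · intro v _
      exact hd M [] _ (hall v)
  exact h1.iso

theorem pf_STA3 {C : Type} [MeasurableSpace C] {c0 : C} (hHUBF : HUBF C c0)
    (hFINW : Pool.Agent.ST.FINW C c0) (hSCO : SCO C) (hGLU : GLU C c0) : STA3 C c0 := by
  classical
  intro b X hyp
  obtain ⟨O, hO, H⟩ := hHUBF b X hyp
  obtain ⟨T, hT, HT⟩ := ctb_of hSCO hGLU b X hyp O hO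
  refine ⟨O, hO, T, hT, fun M hM => ?_⟩
  by_cases hall : ∀ v, InT O M [] (cp M (ms []) v)
  · exact Or.inl (HT M hM hall)
  right
  push Not at hall
  obtain ⟨v0, hv0⟩ := hall
  obtain ⟨w0, hw0, hw0', -⟩ := (H M hM [] v0 (by simp)).resolve_left hv0
  refine ⟨{w | Pool.Agent.ST.Wild c0 b M w ∧ HubE M w},
    (hFINW b X hyp M hM).subset fun w hw => hw.1, ⟨w0, hw0, hw0'⟩,
    fun w hw => ⟨hw.1.1, hw.2, fun B hB => hw.1.2.2.2 B hB⟩, ?_⟩
  rintro a D ⟨v, hv, rfl⟩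
  rcases H M hM a v hv with h | ⟨w, hw, hw', h⟩
  · exact Or.inr h
  · exact Or.inl ⟨w, ⟨hw, hw'⟩, h.symm⟩

theorem final3_of_sta3 {C : Type} {c0 : C} [MeasurableSpace C] [StandardBorelSpace C]
    (hSWG : SWG C c0) (hFIM : FIM C) (hITR : ITR C c0) (hLOP : LOP C) (hNFM : NFM C)
    (hTYC : TYC C) (hSTA : STA3 C c0) : FINAL3 C c0 := by
  intro X hX hval hinv
  by_cases hP : Perf X
  · exact Or.inl hP
  obtain ⟨b0, hb0⟩ := hLOP X hX hinv
  obtain ⟨b, hb, hbase⟩ : ∃ b : Rk, RLe C b0 b ∧ RLe C (Rk.lim (Rk.lim om)) b :=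
    ⟨Sh (Rk.lim (Rk.lim om)) b0, RLe.sh_right _ _, RLe.sh_left _ _⟩
  have hyp : Hyp c0 b X :=
    { val := hval
      cl := fun M hM M' h => hb0 M hM M' (hb _ _ _ _ _ h)
      tc := hTYC X hX hinv hP
      nf := hNFM X hP
      base := hbase }
  obtain ⟨O, hO, T0, hT0, hM⟩ := hSTA b X hyp
  rcases Pool.Agent.H41.ST.gen1 (c0 := c0) hSWG hFIM hITR O hO X hX hval
    (fun M => (∃ N ∈ T0, Iso M N) ∨ ∃ Wd, EndsH O M Wd ∧ ∃ w ∈ Wd, DivE M w) (by
      intro M hMX ν φ hF hdiv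
      rcases hM M hMX with h | ⟨Wd, hE⟩
      · exact Or.inl h
      · exact Or.inr ⟨Wd, hE, Pool.Agent.H41.ST.stb hSWG hITR O M (hval M hMX) Wd
          (hE.endsW (hval M hMX)) ν φ hF hdiv⟩)
    with h | h | h
  · exact Or.inl h
  · exact Or.inr (Or.inl h)
  · refine Or.inr (Or.inr ⟨O, hO, ⟨T0, hT0, fun M hMX hno => ?_⟩, ?_⟩)
    · rcases hM M hMX with h1 | h1
      · exact h1
      · exact absurd h1 hno
    · rintro ⟨T1, hT1, h1⟩
      apply h
      refine ⟨T0 ∪ T1, hT0.union hT1, fun M hMX hPM => ?_⟩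
      rcases hPM with ⟨N, hN, h2⟩ | h2
      · exact ⟨N, Or.inl hN, h2⟩
      · obtain ⟨N, hN, h3⟩ := h1 M hMX h2
        exact ⟨N, Or.inr hN, h3⟩

end Pool.Agent.H71.ST
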